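import Pool.Agent.MP_ca0a54_nt.H60.PBa

/-! Row PB: the mollified quotient of zeta values is close to the shifted mollifier in mean. -/

open Complex MeasureTheory Filter Topology

namespace Pool.Agent.MP_ca0a54_nt.H60

open Pool.Agent.MP_ca0a54_nt.L0 Pool.Agent.MP_ca0a54_nt.H24 Pool.Agent.MP_ca0a54_nt.H83

theorem pb : Mvt1Stmt → LFStmt → PFStmt → LineStmt → GklStmt → KmStmt → Ar1Stmt → Ar2Stmt →
    M1Stmt → PQStmt → PBStmt := by
  rintro hMv hLF hPF hLine ⟨C₀, hC₀, hG⟩ hKm hA1 ⟨C, hC, -, hB2, hB3, -⟩ hM1 hPQ η hη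
  obtain ⟨CL, hCL, hLF⟩ := hLF η hη
  obtain ⟨C', hC', hLine⟩ := hLine CL hCL
  obtain ⟨CQ, hCQ, hPQ⟩ := hPQ η hη
  refine ⟨10 * C' + C' * C + 96 * C' * (1 + CQ) + 12 * C₀ * (8 * C + 1) + 2 * (C + 1),
    by nlinarith [mul_pos (show 0 < C' by linarith) (show 0 < C by linarith),
      mul_pos (show 0 < C' by linarith) (show 0 < CQ by linarith),
      mul_pos (show 0 < C₀ by linarith) (show 0 < C by linarith)], fun Y ε ab hP => ?_⟩
  have hε := hP.e0
  have hY := hP.hY
  have hε1 : ε ≤ 1 / 2 := by nlinarith [hP.e1]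
  have hab4 : ab ≤ 4 := hP.a1.trans Real.pi_le_four
  have hab3 := hP.a0
  obtain ⟨Z, hZ0, hZ⟩ := lser_bd hε
  have hlε : 0 ≤ Real.log (1 / ε) := Real.log_nonneg (by rw [le_div_iff₀ hε]; linarith)
  filter_upwards [hLF, hLine, hG ε hε hε1, hPQ Y ε ab hP, hMv (ε / 8) (by positivity),
    Real.tendsto_log_atTop.eventually
      (hM1 Y ε (by linarith) hε (by linarith [hP.e1, mul_comm Y ε])),
    eventually_ge_atTop (4 : ℝ), eventually_ge_atTop C', eventually_ge_atTop (8 / η),
    eventually_ge_atTop (8 / η ^ 2),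
    Real.tendsto_log_atTop.eventually_ge_atTop 1,
    Real.tendsto_log_atTop.eventually_ge_atTop (64 / ε),
    Real.tendsto_log_atTop.eventually_ge_atTop (C' * (1 + Z)),
    Real.tendsto_log_atTop.eventually_ge_atTop (Y ^ 2),
    Real.tendsto_log_atTop.eventually_ge_atTop (C + 1),
    Real.tendsto_log_atTop.eventually_ge_atTop (C * (C₀ * (3 + Real.log (1 / ε))))]
    with T hLF hLine hG hPQ hMv hM1 hT hTC hηT hηT2 hL1 hL2 hL3 hL4 hL5 hL6 δ U hδ hU y hy0 hy1
  have hT0 : 0 < T := by linarith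
  have hT1 : 1 ≤ T := by linarith
  replace hPQ := hPQ δ U hδ hU
  unfold RR at hPQ ⊢
  set L := Real.log T with hL
  have hL0 : 0 < L := by linarith
  rw [div_le_iff₀ hε] at hL2
  rw [div_le_iff₀ hη] at hηT
  rw [div_le_iff₀ (by positivity)] at hηT2
  obtain ⟨n1, n3, n4, n5, n6, n7, n8⟩ := floors hT1 hε hε1 (by rw [← hL]; linarith)
  rw [← hL] at n3 n7 n8
  set N := ⌊T ^ (1 - ε)⌋₊ with hN
  set N₂ := ⌊T ^ (1 - ε / 8)⌋₊ with hN₂
  set a := ab / L with ha
  set r := rc (Y / L : ℝ) 0 with hr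
  set c := cv (rc 0 (I * a)) (cut r N) with hc
  set Δ := ε * L / 4 with hΔ
  have hΔ0 : 0 < Δ := by positivity
  have ha0 : 0 < a := by positivity
  have ha1 : 1 / L ≤ a := div_le_div_of_nonneg_right (by linarith) hL0.le
  have ha4 : a ≤ 4 / L := div_le_div_of_nonneg_right hab4 hL0.le
  have ha4' : a ≤ 4 := ha4.trans (div_le_self (by norm_num) hL1)
  have haε : a ≤ ε / 16 := by
    refine ha4.trans ?_
    rw [div_le_div_iff₀ hL0 (by norm_num)]
    linarith
  have hyL : 0 ≤ Y / L := by positivity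
  have hφ := fun n => hA1.2.2.2.2.1 (Y / L) n hyL
  have hr1 : ∀ n, ‖r n‖ ≤ 1 := fun n => (hφ n).1.trans (hφ n).2.1
  have hlN : 0 ≤ Real.log N := Real.log_natCast_nonneg N
  have nL : Real.log N ≤ L := by linarith
  have hNN : (N : ℝ) ≤ N₂ := by exact_mod_cast n6
  have hNT : (N : ℝ) ≤ T := hNN.trans n5
  obtain ⟨hc1, hc2⟩ := hB3 L ab N N₂ r hL1 (by linarith) hP.a1 n7 hr1
  obtain ⟨χ, hχ, hG⟩ := hG (Real.log N + Δ) Δ N N₂ n1 le_rfl hΔ0 n3 n5
  set X := C₀ * (3 + Real.log (1 / ε)) with hX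
  have hX1 : 1 ≤ X := one_le_mul_of_one_le_of_one_le hC₀ (by linarith)
  have hχX : ∀ n, ‖χ n‖ ≤ X := fun n => (hχ n).trans
    (mul_le_mul_of_nonneg_left (log_a hε (by linarith) hL0) (by linarith))
  have hsep : ∀ u ∈ U, ∀ u' ∈ U, u ≠ u' → a < |u - u'| :=
    fun u hu u' hu' hne => hδ.trans_le (hU.sep u hu u' hu' hne)
  obtain ⟨hb0, hb1, hb2⟩ := hPF U a ha0 hsep
  have hbT : ∑ u ∈ U, bt U a u ≤ 2 * T := by
    have hδ0 : 0 < δ := ha0.trans hδ
    have h1 := Factor.card_le U δ T T hδ0 hT0.le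
      (fun u hu => ⟨(hU.mem u hu).1, by linarith [(hU.mem u hu).2]⟩) hU.sep
    have h2 : a * (T / δ) ≤ T := by
      rw [← mul_div_assoc, div_le_iff₀ hδ0, mul_comm T δ]
      exact mul_le_mul_of_nonneg_right hδ.le hT0.le
    have h3 := mul_le_mul_of_nonneg_left h1 ha0.le
    rw [hb1]
    linarith
  set E := Real.exp (L * max y 0) with hE
  have hE1 : 1 ≤ E := Real.one_le_exp (mul_nonneg hL0.le (le_max_right _ _))
  obtain ⟨hy2, hy3⟩ := abs_le.1 hy1
  have hya : 0 < |y| := abs_pos.2 hy0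
  set Λ := 1 + Real.log (1 / ε) + Real.log (1 + 1 / (L * |y|)) with hΛ
  have hly : 0 ≤ Real.log (1 + 1 / (L * |y|)) :=
    Real.log_nonneg (le_add_of_nonneg_right (by positivity))
  have hΛ1 : 1 ≤ Λ := by linarith
  set V := U.filter fun u => (1 + 2 * η) * T ≤ u ∧ u ≤ (2 - 2 * η) * T with hV
  set r' := rc (Y / L : ℝ) (I * a) with hr'
  have hcr : ∀ n ≤ N, c n = r' n := fun n hn => by rw [hc, cv_cut _ _ hn, hr, hA1.1]
  have hr'C : ∀ n ≤ N, ‖r' n‖ ≤ C := fun n hn => hcr n hn ▸ hc1 n (hn.trans n6)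
  have him : ((y : ℂ) * I).im = y := by simp
  have hτ : T ^ (-(ε / 8 / 2)) ≤ 1 := Real.rpow_le_one_of_one_le_of_nonpos hT1 (by linarith)
  have hLL : L ≤ L ^ 2 := le_self_pow₀ hL1 (by norm_num)
  have hLLL : L ≤ L ^ 3 := le_self_pow₀ hL1 (by norm_num)
  have hlen : (2 - 3 * η) * T - (1 + 3 * η) * T ≤ T := by linarith
  -- the mean of the top part
  have hTop : ∫⁻ x in Set.Icc ((1 + 3 * η) * T) ((2 - 3 * η) * T),
      ‖ds (fun n => c n * χ n) (Finset.Ioc N N₂) (x + y * I)‖ₑ ≤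
      ENNReal.ofReal (2 * T * (E * (X * (8 * C + 1)))) := by
    have hsub : Finset.Ioc N N₂ ⊆ Finset.Icc 1 N₂ := fun n hn => by
      rw [Finset.mem_Ioc] at hn
      rw [Finset.mem_Icc]
      omega
    refine (hMv N₂ (fun n => c n * χ n) (Finset.Ioc N N₂) (y * I) _ _ n4 hsub (fun n hn => ?_)
      (by linarith)).trans (ENNReal.ofReal_le_ofReal ?_)
    · rw [norm_mul]
      exact (mul_le_mul (hc1 n (Finset.mem_Ioc.1 hn).2) (hχX n) (norm_nonneg _)
        (by linarith)).trans (hL6.trans hLLL)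
    · rw [him]
      refine mul_le_mul_of_nonneg_left
        (sq_bd (W := X ^ 2 * (C * 8)) (by positivity) ?_ hτ ?_) (by positivity)
      · have h1 : 1 ≤ X ^ 2 := one_le_pow₀ hX1
        have h2 : 8 * C + 1 ≤ (8 * C + 1) ^ 2 := le_self_pow₀ (by linarith) (by norm_num)
        have h3 := mul_le_mul_of_nonneg_left h2 (sq_nonneg X)
        rw [mul_pow]
        linarith
      · refine (ms_le _ hsub n7 y).trans (mul_le_mul_of_nonneg_left ?_ (Real.exp_pos _).le)
        have h1 := hc2 8 (ε * L) (fun x hx => le_trans (Finset.sum_le_sum fun n _ =>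
          div_le_div_of_nonneg_right ((pow_le_of_le_one (norm_nonneg _) (hr1 n) two_ne_zero).trans
            (hφ n).1) (Nat.cast_nonneg n)) (hM1 N x nL hx)) (T ^ (1 - ε)) (by positivity)
        have h2 : ∑ n ∈ Finset.Ioc N N₂, ‖c n‖ ^ 2 / n ≤ C * 8 :=
          (Finset.sum_le_sum_of_subset_of_nonneg n8 fun _ _ _ => by positivity).trans h1
        refine le_trans ?_ (mul_le_mul_of_nonneg_left h2 (by positivity))
        rw [Finset.mul_sum]
        refine Finset.sum_le_sum fun n _ => ?_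
        rw [norm_mul, mul_pow, ← mul_div_assoc, mul_comm (X ^ 2)]
        refine div_le_div_of_nonneg_right ?_ (Nat.cast_nonneg n)
        exact mul_le_mul_of_nonneg_left (pow_le_pow_left₀ (norm_nonneg _) (hχX n) 2)
          (by positivity)
  -- the mean of the difference of the two polynomials
  have hDif : ∫⁻ x in Set.Icc ((1 + 3 * η) * T) ((2 - 3 * η) * T),
      ‖ds (fun n => r' n - r n * np (I * a) n) (Finset.Icc 1 N) (x + y * I)‖ₑ ≤
      ENNReal.ofReal (2 * T * (E * (C + 1))) := by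
    refine (hMv N (fun n => r' n - r n * np (I * a) n) (Finset.Icc 1 N) (y * I) _ _
      (hNN.trans n4) subset_rfl (fun n hn => ?_) (by linarith)).trans
      (ENNReal.ofReal_le_ofReal ?_)
    · refine (norm_sub_le _ _).trans (le_trans ?_ (hL5.trans hLLL))
      rw [norm_mul, np_norm, mul_one]
      exact add_le_add (hr'C n (Finset.mem_Icc.1 hn).2) (hr1 n)
    · rw [him]
      refine mul_le_mul_of_nonneg_left (sq_bd (W := C) (by positivity)
        (le_self_pow₀ (by linarith) (by norm_num)) hτ ?_) (by positivity)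
      exact (ms_le _ subset_rfl nL y).trans (mul_le_mul_of_nonneg_left
        (hB2 L Y ab N hY hL4 (by linarith) hP.a1 nL) (Real.exp_pos _).le)
  have hRT : ∀ s : ℝ, ‖dp r N s‖ ≤ T := fun s => by
    have := dp_bd r N (w := s) (by simp) fun n _ => hr1 n
    linarith
  -- the pointwise bound
  have hpt : ∀ x ∈ Set.Icc ((1 + 3 * η) * T) ((2 - 3 * η) * T),
      ‖Bq a (x + y * I) * dp r N (x + y * I) - dp r N (x + y * I + a)‖ ≤
      (8 * C' * E + 2 * C' + C' * C) + ∑ u ∈ V, 8 * C' * E * (bt U a u * ‖dp r N (u - a : ℝ)‖) *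
        km Δ ((u - a : ℝ) - (x + y * I)) +
      2 * ‖ds (fun n => c n * χ n) (Finset.Ioc N N₂) (x + y * I)‖ +
      ‖ds (fun n => r' n - r n * np (I * a) n) (Finset.Icc 1 N) (x + y * I)‖ := by
    intro x hx
    obtain ⟨hx1, hx2⟩ := hx
    obtain ⟨h, hh⟩ := hLF δ U (ha1.trans hδ.le) hU x (by linarith) (by linarith)
    obtain ⟨⟨ϑ, t1, t2, -, t4, t5⟩, -⟩ := hLine a δ x U h ha1 ha4 hδ hU hh
    have hZ1 : C' ≤ C' * (1 + Z) := le_mul_of_one_le_right (by linarith) (by linarith)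
    have happ := app_of hA1 hPF hε hε1 hT0 ha0 hδ haε hU (by linarith) t2
      (by linarith) (hL3.trans hLLL) hZ t4
    set w : ℂ := x + y * I with hw
    have hwre : w.re = x := by simp [hw]
    have hwim : w.im = y := by simp [hw]
    have hg := hG 1 U _ _ _ r w hr1 (by rw [hwim]; exact hy0) (by rw [hwim]; exact hy1)
      (by rw [hwre]; exact happ)
    rw [← hb2 w (by rw [hwim]; exact hy0), cv_smul, dp_smul, ds_smul, hwim] at hg
    have hPr : dp c N w = dp r' N w := by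
      unfold dp ds
      exact Finset.sum_congr rfl fun n hn => by rw [hcr n (Finset.mem_Icc.1 hn).2]
    rw [← hc, hPr] at hg
    have t6 := t5 w (by
      have : w - x = y * I := by rw [hw]; ring
      rw [this, norm_mul, Complex.norm_I, mul_one, Complex.norm_real, Real.norm_eq_abs]
      linarith) (by rw [hwim]; exact hy0)
    have hτ1 : C' / T ≤ 1 := div_le_one_of_le₀ hTC hT0.le
    have hfin := alg (S := dp r N (w + a)) hC' t1 (by positivity) hτ1 t6 hg
    rw [dp_diff] at hfin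
    refine hfin.trans (add_le_add (add_le_add ?_ le_rfl) le_rfl)
    have e1 : C' / T * ‖dp r' N w‖ ≤ C' * C := by
      have h1 := dp_bd r' N (w := w) (by rw [hwim]; linarith) hr'C
      have h2 : C * N ≤ C * T := mul_le_mul_of_nonneg_left hNT (by linarith)
      calc _ ≤ C' / T * (C * T) := mul_le_mul_of_nonneg_left (h1.trans h2) (by positivity)
        _ = C' * C := by field_simp
    have e2 : T ^ (-(1 / 4) : ℝ) ≤ 1 := Real.rpow_le_one_of_one_le_of_nonpos hT1 (by norm_num)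
    have e3 : max (Real.exp ((Real.log N + Δ) * y)) (Real.exp ((Real.log N + Δ + Δ) * y)) ≤ E := by
      refine max_le (Real.exp_le_exp.2 ?_) (Real.exp_le_exp.2 ?_)
      · exact (mul_le_mul_of_nonneg_left (le_max_left y 0) (by linarith)).trans
          (mul_le_mul_of_nonneg_right (by linarith) (le_max_right _ _))
      · exact (mul_le_mul_of_nonneg_left (le_max_left y 0) (by linarith)).trans
          (mul_le_mul_of_nonneg_right (by linarith) (le_max_right _ _))
    set S₁ := ∑ u ∈ V, bt U a u * ‖dp r N (u - a : ℝ)‖ * km Δ ((u - a : ℝ) - w) with hS₁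
    have e4 : ∑ u ∈ U, |-bt U a u| * ‖dp r N (u - a : ℝ)‖ * km Δ ((u - a : ℝ) - w) ≤ S₁ + 1 := by
      rw [← Finset.sum_filter_add_sum_filter_not U
        fun u => (1 + 2 * η) * T ≤ u ∧ u ≤ (2 - 2 * η) * T]
      refine add_le_add (le_of_eq (Finset.sum_congr rfl fun u hu => ?_)) ?_
      · rw [abs_neg, abs_of_pos (hb0 u (Finset.mem_filter.1 hu).1)]
      · refine le_trans ?_ (far_small (η := η) hT0 (by linarith))
        calc _ ≤ ∑ u ∈ U.filter fun u => ¬((1 + 2 * η) * T ≤ u ∧ u ≤ (2 - 2 * η) * T),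
              bt U a u * (T * Real.exp (-(η * T / 2) ^ 2)) := by
              refine Finset.sum_le_sum fun u hu => ?_
              obtain ⟨hu1, hu2⟩ := Finset.mem_filter.1 hu
              rw [abs_neg, abs_of_pos (hb0 u hu1), mul_assoc]
              refine mul_le_mul_of_nonneg_left (mul_le_mul (hRT _) (km_far (by linarith) ?_)
                (km_nonneg hΔ0 _) hT0.le) (hb0 u hu1).le
              rw [Complex.sub_re, Complex.ofReal_re, hwre]
              rcases not_and_or.1 hu2 with h' | h'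
              · rw [not_le] at h'
                exact le_abs.2 (Or.inr (by linarith))
              · rw [not_le] at h'
                exact le_abs.2 (Or.inl (by linarith))
          _ ≤ ∑ u ∈ U, bt U a u * (T * Real.exp (-(η * T / 2) ^ 2)) :=
              Finset.sum_le_sum_of_subset_of_nonneg (Finset.filter_subset _ _)
                fun u hu _ => mul_nonneg (hb0 u hu).le (by positivity)
          _ ≤ 2 * T * (T * Real.exp (-(η * T / 2) ^ 2)) := by
              rw [← Finset.sum_mul]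
              exact mul_le_mul_of_nonneg_right hbT (by positivity)
          _ = _ := by ring
    have e5 : 0 ≤ ∑ u ∈ U, |-bt U a u| * ‖dp r N (u - a : ℝ)‖ * km Δ ((u - a : ℝ) - w) :=
      Finset.sum_nonneg fun u _ => mul_nonneg (by positivity) (km_nonneg hΔ0 _)
    have e6 : ∑ u ∈ V, 8 * C' * E * (bt U a u * ‖dp r N (u - a : ℝ)‖) *
        km Δ ((u - a : ℝ) - w) = 8 * C' * E * S₁ := by
      rw [hS₁, Finset.mul_sum]
      exact Finset.sum_congr rfl fun u _ => by ring
    have e7 := mul_le_mul e3 e4 e5 (by linarith)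
    have e8 := mul_le_mul_of_nonneg_left e7 (show 0 ≤ 8 * C' by linarith)
    have e9 := mul_le_mul_of_nonneg_left e2 (show 0 ≤ 2 * C' by linarith)
    rw [e6]
    linarith
  have hω : ∀ u ∈ V, 0 ≤ bt U a u * ‖dp r N (u - a : ℝ)‖ := fun u hu =>
    mul_nonneg (hb0 u (Finset.mem_filter.1 hu).1).le (norm_nonneg _)
  have hsum : ∑ u ∈ V, bt U a u * ‖dp r N (u - a : ℝ)‖ ≤ (1 + CQ) * T := by
    have h1 : ∑ u ∈ V, bt U a u ≤ 2 * T :=
      (Finset.sum_le_sum_of_subset_of_nonneg (Finset.filter_subset _ _)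
        fun u hu _ => (hb0 u hu).le).trans hbT
    have h2 : ∑ u ∈ V, bt U a u * ‖dp r N (u - a : ℝ)‖ ≤
        ∑ u ∈ V, (bt U a u / 2 + bt U a u * ‖dp r N (u - a : ℝ)‖ ^ 2 / 2) := by
      refine Finset.sum_le_sum fun u hu => ?_
      have := hb0 u (Finset.mem_filter.1 hu).1
      linarith [mul_nonneg this.le (sq_nonneg (‖dp r N (u - a : ℝ)‖ - 1))]
    rw [Finset.sum_add_distrib, ← Finset.sum_div, ← Finset.sum_div] at h2
    linarith [mul_nonneg (show 0 ≤ CQ by linarith) hT0.le]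
  have hfin := int_bound measurableSet_Icc V
    (fun u => 8 * C' * E * (bt U a u * ‖dp r N (u - a : ℝ)‖))
    (fun u x => km Δ ((u - a : ℝ) - (x + y * I))) _ _ _ (K := 12 * Λ) (T := T)
    (by positivity) (by positivity) (by positivity) (by positivity) hT0.le
    (fun u hu => mul_nonneg (by positivity) (hω u hu)) (fun u x => km_nonneg hΔ0 _)
    (fun u => km_meas _ _ _) (ds_meas _ _ _) (ds_meas _ _ _)
    (by rw [Real.volume_Icc]; exact ENNReal.ofReal_le_ofReal hlen)
    (fun u => (hKm Δ y (u - a) hΔ0 hy0).trans (ENNReal.ofReal_le_ofReal (by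
      have := log_b hε (by linarith) hL0 hya
      linarith))) hTop hDif hpt
  refine hfin.trans (ENNReal.ofReal_le_ofReal ?_)
  rw [← Finset.mul_sum]
  have hTE : 0 < T * E := by positivity
  have f1 : (8 * C' * E + 2 * C' + C' * C) * T ≤ (10 * C' + C' * C) * (T * E * Λ) := by
    have h1 : 8 * C' * E + 2 * C' + C' * C ≤ (10 * C' + C' * C) * E := by
      linarith [mul_le_mul_of_nonneg_left hE1 (show 0 ≤ C' by linarith),
        mul_le_mul_of_nonneg_left hE1 (show 0 ≤ C' * C by positivity)]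
    calc _ ≤ (10 * C' + C' * C) * E * T := mul_le_mul_of_nonneg_right h1 hT0.le
      _ = (10 * C' + C' * C) * (T * E * 1) := by ring
      _ ≤ _ := by gcongr
  have f2 : 8 * C' * E * (∑ u ∈ V, bt U a u * ‖dp r N (u - a : ℝ)‖) * (12 * Λ) ≤
      96 * C' * (1 + CQ) * (T * E * Λ) := by
    calc _ ≤ 8 * C' * E * ((1 + CQ) * T) * (12 * Λ) := by gcongr
      _ = _ := by ring
  have f3 : 2 * (2 * T * (E * (X * (8 * C + 1)))) ≤ 12 * C₀ * (8 * C + 1) * (T * E * Λ) := by
    have h1 : X ≤ C₀ * (3 * Λ) := mul_le_mul_of_nonneg_left (by linarith) (by linarith)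
    calc _ ≤ 2 * (2 * T * (E * (C₀ * (3 * Λ) * (8 * C + 1)))) := by gcongr
      _ = _ := by ring
  have f4 : 2 * T * (E * (C + 1)) ≤ 2 * (C + 1) * (T * E * Λ) := by
    calc _ = 2 * (C + 1) * (T * E * 1) := by ring
      _ ≤ _ := by gcongr
  calc _ ≤ (10 * C' + C' * C) * (T * E * Λ) + 96 * C' * (1 + CQ) * (T * E * Λ) +
        12 * C₀ * (8 * C + 1) * (T * E * Λ) + 2 * (C + 1) * (T * E * Λ) := by linarith
    _ = _ := by ring

end Pool.Agent.MP_ca0a54_nt.H60
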