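import Pool.Agent.MP_ca0a54_nt.H29.Spec
import Pool.Agent.MP_ca0a54_nt.H40.MVT
import Pool.Agent.MP_ca0a54_nt.H88.AR1
import Pool.Agent.MP_ca0a54_nt.H83.PQ
import Pool.Agent.MP_ca0a54_nt.L0.ZetaA

/-! Row MV: the mean value of the positive part on the line `im w = -1 / (Y L)`. -/

open Complex MeasureTheory Filter Topology

namespace Pool.Agent.MP_ca0a54_nt.H60

open Pool.Agent.MP_ca0a54_nt.L0 Pool.Agent.MP_ca0a54_nt.H24 Pool.Agent.MP_ca0a54_nt.H29

theorem mv_gauss_one : 1 ≤ ∫ x : ℝ, Real.exp (-x ^ 2) := by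
  have h := integral_gaussian 1
  simp only [neg_mul, one_mul, div_one] at h
  rw [h, Real.one_le_sqrt]
  linarith [Real.pi_gt_three]

theorem mv_gs_int {H : ℝ → ℝ} (hc : Measurable H) {B : ℝ} (hB : ∀ s, |H s| ≤ B) (t : ℝ) :
    Integrable fun x : ℝ => H (t + x) * Real.exp (-x ^ 2) := by
  refine (H83.gauss_int.const_mul B).mono' (Measurable.aestronglyMeasurable (by fun_prop))
    (Eventually.of_forall fun x => ?_)
  rw [Real.norm_eq_abs, abs_mul, abs_of_pos (Real.exp_pos _)]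
  exact mul_le_mul_of_nonneg_right (hB _) (Real.exp_pos _).le

/-- A lower bound for all Gaussian averages gives a lower bound for some mean. -/
theorem mv_gs_low {H : ℝ → ℝ} (hc : Measurable H) {B : ℝ} (hB : ∀ s, |H s| ≤ B)
    {t₁ t₂ m τ : ℝ} (ht : t₁ ≤ t₂) (hτ : 0 ≤ τ)
    (hl : ∀ t ∈ Set.Icc t₁ t₂, -τ ≤ ∫ x : ℝ, H (t + x) * Real.exp (-x ^ 2))
    (h : ∀ x : ℝ, ∫ s in (t₁ + x)..(t₂ + x), H s ≤ m) : -((t₂ - t₁) * τ) ≤ m := by
  have hint : Integrable (Function.uncurry fun t x : ℝ => H (t + x) * Real.exp (-x ^ 2))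
      ((volume.restrict (Set.uIoc t₁ t₂)).prod volume) := by
    have : IsFiniteMeasure (volume.restrict (Set.uIoc t₁ t₂)) := by
      refine ⟨?_⟩
      rw [Measure.restrict_apply_univ, Set.uIoc]
      exact measure_Ioc_lt_top
    have h1 : Integrable (fun p : ℝ × ℝ => B * Real.exp (-p.2 ^ 2))
        ((volume.restrict (Set.uIoc t₁ t₂)).prod volume) :=
      (integrable_const B).mul_prod H83.gauss_int
    refine h1.mono' ?_ (Eventually.of_forall fun p => ?_)
    · apply Measurable.aestronglyMeasurable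
      unfold Function.uncurry
      fun_prop
    · simp only [Function.uncurry]
      rw [Real.norm_eq_abs, abs_mul, abs_of_pos (Real.exp_pos _)]
      exact mul_le_mul_of_nonneg_right (hB _) (Real.exp_pos _).le
  have hI : IntervalIntegrable (fun t => ∫ x : ℝ, H (t + x) * Real.exp (-x ^ 2)) volume t₁ t₂ := by
    rw [intervalIntegrable_iff]
    exact hint.integral_prod_left
  have hlow : ∫ _t in t₁..t₂, -τ ≤ ∫ t in t₁..t₂, (∫ x : ℝ, H (t + x) * Real.exp (-x ^ 2)) :=
    intervalIntegral.integral_mono_on ht intervalIntegrable_const hI hl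
  rw [intervalIntegral.integral_const, smul_eq_mul, intervalIntegral_integral_swap hint] at hlow
  have h2 : ∀ x : ℝ, (∫ t in t₁..t₂, H (t + x) * Real.exp (-x ^ 2)) ≤ m * Real.exp (-x ^ 2) := by
    intro x
    rw [intervalIntegral.integral_mul_const, intervalIntegral.integral_comp_add_right]
    exact mul_le_mul_of_nonneg_right (h x) (Real.exp_pos _).le
  have h3 : Integrable fun x : ℝ => ∫ t in t₁..t₂, H (t + x) * Real.exp (-x ^ 2) := by
    have := hint.integral_prod_right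
    simp only [Function.uncurry] at this
    simp only [intervalIntegral.intervalIntegral_eq_integral_uIoc]
    exact this.smul (if t₁ ≤ t₂ then (1 : ℝ) else -1)
  have h4 := integral_mono h3 (H83.gauss_int.const_mul m) h2
  rw [integral_const_mul] at h4
  rcases le_or_gt 0 m with hm | hm
  · nlinarith
  · nlinarith [mv_gauss_one]

/-- The abstract form of the step. -/
theorem mv_abs {Bf P R : ℝ → ℂ} {e S : ℂ} {α β t₁ t₂ X₀ τ E B₁ B₂ : ℝ} (he : ‖e‖ ≤ 1)
    (hB : ContinuousOn Bf (Set.Icc α β)) (hP : Continuous P) (hR : Continuous R)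
    (hPb : ∀ s, ‖P s‖ ≤ B₁) (hRb : ∀ s, ‖R s‖ ≤ B₂) (ht : t₁ ≤ t₂) (hX : 0 ≤ X₀)
    (hα : α ≤ t₁ - X₀) (hβ : t₂ + X₀ ≤ β) (hτ : 0 ≤ τ)
    (hq : ∀ t ∈ Set.Icc t₁ t₂,
      ‖(∫ x in (-X₀)..X₀, Bf (t + x) * (‖R (t + x)‖ ^ 2 * Real.exp (-x ^ 2) : ℝ)) -
        ∫ x : ℝ, P (t + x) * (starRingEnd ℂ) (R (t + x)) * (Real.exp (-x ^ 2) : ℝ)‖ ≤ τ)
    (hm : ∀ s₁ s₂ : ℝ, ‖(∫ s in s₁..s₂, P s * (starRingEnd ℂ) (R s)) -
      ((s₂ - s₁ : ℝ) : ℂ) * S‖ ≤ E) :
    (t₂ - t₁) * ((e * S).im - τ) - E ≤ ∫ x in α..β, max 0 (e * Bf x).im * ‖R x‖ ^ 2 := by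
  classical
  have hαβ : α ≤ β := by linarith
  set H : ℝ → ℝ := fun x => max 0 (e * Bf x).im * ‖R x‖ ^ 2 with hH
  have hHc : ContinuousOn H (Set.Icc α β) := by
    refine ContinuousOn.mul ?_ (by fun_prop)
    exact (continuous_const.max Complex.continuous_im).comp_continuousOn
      (continuousOn_const.mul hB)
  have hH0 : ∀ x, 0 ≤ H x := fun x => mul_nonneg (le_max_left _ _) (by positivity)
  obtain ⟨B₀, hB₀⟩ := isCompact_Icc.exists_bound_of_continuousOn hHc
  set Ht : ℝ → ℝ := (Set.Icc α β).indicator H with hHt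
  have hHtm : Measurable Ht := by
    have := hHc.measurable_piecewise (g := fun _ => (0 : ℝ)) continuousOn_const measurableSet_Icc
    rwa [hHt, ← Set.piecewise_eq_indicator]
  have hHt0 : ∀ x, 0 ≤ Ht x := fun x => Set.indicator_nonneg (fun y _ => hH0 y) x
  have hHtb : ∀ x, |Ht x| ≤ |B₀| := by
    intro x
    by_cases hx : x ∈ Set.Icc α β
    · rw [hHt, Set.indicator_of_mem hx]
      exact (hB₀ x hx).trans (le_abs_self _)
    · rw [hHt, Set.indicator_of_notMem hx, abs_zero]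
      exact abs_nonneg _
  have hHti : Integrable Ht := by
    rw [hHt, integrable_indicator_iff measurableSet_Icc]
    exact hHc.integrableOn_Icc
  have hHtI : ∫ x, Ht x = ∫ x in α..β, H x := by
    rw [hHt, integral_indicator measurableSet_Icc, integral_Icc_eq_integral_Ioc,
      intervalIntegral.integral_of_le hαβ]
  set Q : ℝ → ℂ := fun s => P s * (starRingEnd ℂ) (R s) with hQ
  have hQc : Continuous Q := by
    rw [hQ]
    fun_prop
  have hQb : ∀ s, ‖Q s‖ ≤ B₁ * B₂ := fun s => by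
    rw [hQ, norm_mul, Complex.norm_conj]
    exact mul_le_mul (hPb s) (hRb s) (norm_nonneg _) ((norm_nonneg _).trans (hPb s))
  set G : ℝ → ℝ := fun s => (e * Q s).im with hG
  have hGc : Continuous G := by
    rw [hG]
    fun_prop
  have him : ∀ z : ℂ, |(e * z).im| ≤ ‖z‖ := fun z => by
    refine (Complex.abs_im_le_norm _).trans ?_
    rw [norm_mul]
    exact mul_le_of_le_one_left (norm_nonneg _) he
  have hGb : ∀ s, |G s| ≤ B₁ * B₂ := fun s => (him _).trans (hQb s)
  let ℓ : ℂ →L[ℝ] ℝ := Complex.imCLM.comp ((ContinuousLinearMap.mul ℝ ℂ) e)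
  have hℓ : ∀ z, ℓ z = (e * z).im := fun z => rfl
  have key := mv_gs_low (H := fun s => Ht s - G s) (hHtm.sub hGc.measurable)
    (B := |B₀| + B₁ * B₂) (fun s => (abs_sub _ _).trans (add_le_add (hHtb s) (hGb s)))
    (m := (∫ x in α..β, H x) - ((t₂ - t₁) * (e * S).im - E)) ht hτ ?_ ?_
  · linarith
  · intro t htm
    have i1 := mv_gs_int hHtm hHtb t
    have i2 := mv_gs_int hGc.measurable hGb t
    have i3 := H83.gs_intC hQc hQb t
    simp only [sub_mul]
    rw [integral_sub i1 i2]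
    have e1 : ∫ x : ℝ, G (t + x) * Real.exp (-x ^ 2) =
        (e * ∫ x : ℝ, Q (t + x) * (Real.exp (-x ^ 2) : ℝ)).im := by
      rw [← hℓ, ← ℓ.integral_comp_comm i3]
      refine integral_congr_ae (Eventually.of_forall fun x => ?_)
      show (e * Q (t + x)).im * Real.exp (-x ^ 2) =
        (e * (Q (t + x) * ((Real.exp (-x ^ 2) : ℝ) : ℂ))).im
      rw [← mul_assoc e (Q (t + x)), Complex.im_mul_ofReal]
    have hmem : ∀ x ∈ Set.Icc (-X₀) X₀, t + x ∈ Set.Icc α β := fun x hx =>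
      ⟨by linarith [htm.1, hx.1], by linarith [htm.2, hx.2]⟩
    have hX' : -X₀ ≤ X₀ := by linarith
    have c1 : ContinuousOn (fun x : ℝ => Bf (t + x) *
        ((‖R (t + x)‖ ^ 2 * Real.exp (-x ^ 2) : ℝ) : ℂ)) (Set.Icc (-X₀) X₀) := by
      refine ContinuousOn.mul (hB.comp (by fun_prop) hmem) (Continuous.continuousOn ?_)
      fun_prop
    have i4 : IntervalIntegrable (fun x : ℝ => Bf (t + x) *
        ((‖R (t + x)‖ ^ 2 * Real.exp (-x ^ 2) : ℝ) : ℂ)) volume (-X₀) X₀ :=
      c1.intervalIntegrable_of_Icc hX'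
    have e2 : (e * ∫ x in (-X₀)..X₀, Bf (t + x) *
        ((‖R (t + x)‖ ^ 2 * Real.exp (-x ^ 2) : ℝ) : ℂ)).im ≤
        ∫ x : ℝ, Ht (t + x) * Real.exp (-x ^ 2) := by
      rw [← hℓ, ← ℓ.intervalIntegral_comp_comm i4]
      have c2 : ContinuousOn (fun x : ℝ => ℓ (Bf (t + x) *
          ((‖R (t + x)‖ ^ 2 * Real.exp (-x ^ 2) : ℝ) : ℂ))) (Set.Icc (-X₀) X₀) :=
        ℓ.continuous.comp_continuousOn c1
      refine (intervalIntegral.integral_mono_on hX' (c2.intervalIntegrable_of_Icc hX')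
        i1.intervalIntegrable fun x hx => ?_).trans ?_
      · rw [hℓ, ← mul_assoc, Complex.im_mul_ofReal, hHt, Set.indicator_of_mem (hmem x hx),
          ← mul_assoc]
        refine mul_le_mul_of_nonneg_right ?_ (Real.exp_pos _).le
        exact mul_le_mul_of_nonneg_right (le_max_right _ _) (by positivity)
      · rw [intervalIntegral.integral_of_le hX']
        exact setIntegral_le_integral i1 (Eventually.of_forall fun x =>
          mul_nonneg (hHt0 _) (Real.exp_pos _).le)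
    have e3 := (abs_le.1 ((him _).trans (hq t htm))).1
    rw [mul_sub, Complex.sub_im] at e3
    rw [e1]
    linarith
  · intro x
    have hx : t₁ + x ≤ t₂ + x := by linarith
    rw [intervalIntegral.integral_sub hHti.intervalIntegrable (hGc.intervalIntegrable _ _)]
    have e1 : ∫ s in (t₁ + x)..(t₂ + x), Ht s ≤ ∫ x in α..β, H x := by
      rw [← hHtI, intervalIntegral.integral_of_le hx]
      exact setIntegral_le_integral hHti (Eventually.of_forall hHt0)
    have e2 : ∫ s in (t₁ + x)..(t₂ + x), G s = (e * ∫ s in (t₁ + x)..(t₂ + x), Q s).im := by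
      rw [← hℓ, ← ℓ.intervalIntegral_comp_comm (hQc.intervalIntegrable _ _)]
      rfl
    have e3 := (abs_le.1 ((him _).trans (hm (t₁ + x) (t₂ + x)))).1
    rw [mul_sub, Complex.sub_im, mul_left_comm, Complex.im_ofReal_mul] at e3
    rw [e2]
    have e4 : t₂ + x - (t₁ + x) = t₂ - t₁ := by ring
    rw [e4] at e3
    linarith

theorem mv_cut_smul (z : ℂ) (g : ℕ → ℂ) (N : ℕ) :
    cut (fun n => z * g n) N = fun n => z * cut g N n := by
  funext n
  unfold cut
  split_ifs <;> simp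

theorem mv_cv_smul (z : ℂ) (f g : ℕ → ℂ) : cv f (fun n => z * g n) = fun n => z * cv f g n := by
  funext n
  simp only [cv, LSeries.convolution_def, Finset.mul_sum]
  exact Finset.sum_congr rfl fun p _ => by ring

theorem mv_shift (c : ℕ → ℂ) (N : ℕ) (y s : ℝ) :
    dp c N (s - y * I) = ds (fun n => c n * np y n) (Finset.Icc 1 N) s := by
  have e1 : I * (-(y * I) : ℂ) = y := by
    rw [mul_neg, mul_left_comm, I_mul_I]
    ring
  rw [dp, sub_eq_add_neg, H40.ds_shift, e1]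

theorem mv_np_le {y : ℝ} (hy : 0 ≤ y) (n : ℕ) : ‖np y n‖ ≤ 1 := by
  rw [H88.np_real, Complex.norm_real, Real.norm_eq_abs, abs_of_pos (Real.exp_pos _),
    Real.exp_le_one_iff]
  have : 0 ≤ Real.log n := Real.log_natCast_nonneg n
  nlinarith

theorem mv_sum (c d : ℕ → ℂ) (y : ℝ) {N N₂ : ℕ} (h : N ≤ N₂) :
    ∑ n ∈ Finset.Icc 1 N₂ ∩ Finset.Icc 1 N, c n * np y n * (starRingEnd ℂ) (d n * np y n) / n =
    ∑ n ∈ Finset.Icc 1 N, c n * (starRingEnd ℂ) (d n) *
      (Real.exp (-(1 + 2 * y) * Real.log n) : ℝ) := by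
  rw [Finset.inter_eq_right.2 (Finset.Icc_subset_Icc_right h)]
  refine Finset.sum_congr rfl fun n hn => ?_
  have hn0 : (0 : ℝ) < n := by exact_mod_cast (Finset.mem_Icc.1 hn).1
  have e1 : Real.exp (-(1 + 2 * y) * Real.log n) =
      Real.exp (-y * Real.log n) * Real.exp (-y * Real.log n) / n := by
    rw [eq_div_iff hn0.ne', ← Real.exp_add]
    conv_lhs => rw [← Real.exp_log hn0]
    rw [Real.log_exp, ← Real.exp_add]
    congr 1
    ring
  rw [e1, H88.np_real, map_mul, Complex.conj_ofReal]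
  push_cast
  ring

theorem mv_ev : ∀ᶠ T : ℝ in atTop, √T / 2 + 4 ≤ T / 120 := by
  filter_upwards [eventually_ge_atTop (14400 : ℝ)] with T hT
  have h1 : 120 ≤ √T := by
    rw [Real.le_sqrt (by norm_num) (by linarith)]
    linarith
  have h2 : √T * √T = T := Real.mul_self_sqrt (by linarith)
  nlinarith

theorem mv : CrStmt → SegStmt → QlStmt → S2Stmt → MvStmt := by
  rintro hcr hseg hql ⟨C', hC', hS⟩
  obtain ⟨K, hK, hM⟩ := H40.mvt
  obtain ⟨-, -, h3, h4, h5, h6, -⟩ := H88.ar1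
  refine ⟨C' + 2, by linarith, fun C Y ab X hC hY hab3 hab4 hX => ?_⟩
  set ε : ℝ := 1 / (4 * Y) with hεdef
  have hε : 0 < ε := by positivity
  have hε1 : ε ≤ 1 / 2 := one_div_le_one_div_of_le (by norm_num) (by linarith)
  filter_upwards [hcr C Y hC (by linarith), hql ε hε hε1, hS Y ab X hY hab3 hab4 hX,
    H83.ev_err (20 * (K * C')) ε hε, eventually_ge_atTop (1 : ℝ), mv_ev,
    Real.tendsto_log_atTop.eventually_ge_atTop 4,
    Real.tendsto_log_atTop.eventually_ge_atTop (64 / ε)]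
    with T hcr hql hS hE hT hsq hL1 hL2 χ U m hχ hZ
  have hT0 : 0 < T := by linarith
  obtain ⟨hcb, hS⟩ := hS χ hχ
  rw [div_le_iff₀ hε] at hL2
  obtain ⟨n1, n2, n3, n4, n5, n6, n7⟩ := H83.floors hT hε hε1 (by nlinarith)
  have hlen : len T Y = ⌊T ^ (1 - ε)⌋₊ := rfl
  unfold BC RC
  rw [hlen] at hcb hS ⊢
  have hcf : ∀ n, ‖cf T Y χ n‖ ≤ X := by
    intro n
    have hy : 0 ≤ Y / Real.log T := by positivity
    have := h5 _ n hy
    rw [cf, norm_mul]
    calc _ ≤ 1 * X := mul_le_mul (this.1.trans this.2.1) (hχ.bd n) (norm_nonneg _) zero_le_one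
      _ = X := one_mul X
  set L := Real.log T with hL
  have hL0 : 0 < L := by linarith
  set N := ⌊T ^ (1 - ε)⌋₊ with hN
  set N₂ := ⌊T ^ (1 - ε / 2)⌋₊ with hN₂
  set a := ab / L with ha
  set y := 1 / (Y * L) with hy
  set g := cf T Y χ with hg
  set c := cv (rc 0 (I * a)) (cut g N) with hc
  have hX0 : 0 < X := by linarith
  have ha0 : 0 < a := by positivity
  have ha4 : a ≤ 4 / L := div_le_div_of_nonneg_right hab4 hL0.le
  have ha1 : a ≤ 1 := ha4.trans (by rw [div_le_one hL0]; exact hL1)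
  have haε : a ≤ ε / 16 := by
    refine ha4.trans ?_
    rw [div_le_div_iff₀ hL0 (by norm_num)]
    nlinarith
  have hy0 : 0 < y := by positivity
  have hy4 : y ≤ 1 / 4 := one_div_le_one_div_of_le (by norm_num) (by nlinarith)
  have hsq0 : 0 ≤ √T := Real.sqrt_nonneg T
  have hne : ∀ w : ℂ, |w.re - 3 * T / 2| ≤ T / 8 → w.im < 0 → zf w ≠ 0 := by
    intro w hw hi h0
    obtain ⟨u, -, rfl⟩ := (hZ.zeros w hw).1 h0
    simp at hi
  have hdz : ∀ w : ℂ, 0 < w.re → DifferentiableAt ℂ zf w := fun w hw =>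
    zf_differentiableOn.differentiableAt
      ((isOpen_lt continuous_const Complex.continuous_re).mem_nhds hw)
  have hdB : ∀ z : ℂ, |z.re - 3 * T / 2| ≤ T / 30 → z.im < 0 → DifferentiableAt ℂ (Bq a) z := by
    intro z hz hi
    have hz' := abs_le.1 hz
    have d1 := hdz z (by linarith [hz'.1])
    have d2 : DifferentiableAt ℂ (fun w : ℂ => zf (w + a)) z :=
      DifferentiableAt.comp (g := zf) (f := fun w : ℂ => w + a) z
        (hdz (z + a) (by simp; linarith [hz'.1])) (differentiableAt_id.add_const _)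
    refine d1.div d2 (hne _ ?_ (by simpa using hi))
    rw [abs_le]
    simp only [add_re, ofReal_re]
    constructor <;> linarith [hz'.1, hz'.2]
  have hbB : ∀ z : ℂ, |z.re - 3 * T / 2| ≤ T / 30 → -1 ≤ z.im → z.im ≤ -y →
      ‖Bq a z‖ ≤ Real.exp (L ^ 3) := by
    intro z hz hi1 hi2
    have hz' := abs_le.1 hz
    have hre : ∀ s : ℝ, 0 ≤ s → s ≤ 1 → |(z + s * (z + a - z)).re - 3 * T / 2| ≤ T / 20 := by
      intro s hs0 hs1
      have : (z + s * (z + a - z)).re = z.re + s * a := by simp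
      rw [this, abs_le]
      constructor <;> nlinarith [hz'.1, hz'.2]
    have him : ∀ s : ℝ, (z + s * (z + a - z)).im = z.im := fun s => by simp
    have := (hseg z (z + a) (by linarith [hz'.1]) (by simp; linarith [hz'.1]) fun s hs0 hs1 =>
      hne _ ((hre s hs0 hs1).trans (by linarith)) (by rw [him]; linarith)).2 (L ^ 3)
      fun s hs0 hs1 => hcr U m hZ _ (hre s hs0 hs1) (by rw [him]; linarith) (by rw [him]; linarith)
    refine this.2.trans (Real.exp_le_exp.2 ?_)
    rw [add_sub_cancel_left, Complex.norm_real, Real.norm_eq_abs, abs_of_pos ha0]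
    exact mul_le_of_le_one_right (by positivity) ha1
  have hb : ∀ n : ℕ, ‖rc 0 (I * a) n‖ ≤ L ^ 2 * Real.exp (ε / 16 * Real.log n) := by
    intro n
    refine le_trans ?_ (le_mul_of_one_le_left (Real.exp_pos _).le (by nlinarith))
    rcases Nat.eq_zero_or_pos n with rfl | hn
    · rw [(h4 _ _).1, norm_zero]
      positivity
    · have e1 : ‖rc 0 (I * a) n‖ ≤ ∑ k ∈ n.divisors, ‖rc 0 (I * a) k‖ :=
        Finset.single_le_sum (f := fun k => ‖rc 0 (I * a) k‖) (fun _ _ => norm_nonneg _)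
          (Nat.mem_divisors_self n hn.ne')
      refine e1.trans ((h6 a n ha0.le).trans (Real.exp_le_exp.2 ?_))
      exact mul_le_mul_of_nonneg_right haε (Real.log_natCast_nonneg n)
  have hLs : ∀ z : ℂ, z.im = -(1 / 2 + ε / 8) →
      Bq a z = LSeries (rc 0 (I * a)) (1 / 2 + I * z) := by
    intro z him
    have hs : (1 / 2 + I * z).re = 1 + ε / 8 := by
      simp [him]
      ring
    rw [(h3 0 (I * a) (1 / 2 + I * z) (by rw [add_zero, hs]; linarith)
      (by rw [Complex.add_re, hs]; simp; linarith)).2, Bq, zf, zf, add_zero]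
    congr 2
    ring
  set e : ℂ := exp (-I * (ab / 2 : ℝ)) with he
  have he1 : ‖e‖ ≤ 1 := by
    rw [he, Complex.norm_exp]
    simp
  have hXc : (X : ℂ) ≠ 0 := by exact_mod_cast hX0.ne'
  have key := mv_abs (Bf := fun x : ℝ => Bq a (x - y * I)) (P := fun x : ℝ => dp c N₂ (x - y * I))
    (R := fun x : ℝ => dp g N (x - y * I)) (e := e)
    (S := ∑ n ∈ Finset.Icc 1 N, c n * (starRingEnd ℂ) (g n) *
      (Real.exp (-(1 + 2 * y) * Real.log n) : ℝ))
    (α := 3 * T / 2 - T / 30) (β := 3 * T / 2 + T / 30) (t₁ := 3 * T / 2 - T / 40)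
    (t₂ := 3 * T / 2 + T / 40) (X₀ := √T / 2) (τ := X ^ 2) (E := T / 20 * X ^ 2)
    (B₁ := ∑ n ∈ Finset.Icc 1 N₂, ‖c n * np y n‖) (B₂ := ∑ n ∈ Finset.Icc 1 N, ‖g n * np y n‖)
    he1 ?_ ?_ ?_ ?_ ?_ (by linarith) (by positivity) (by linarith) (by linarith) (by positivity)
    ?_ ?_
  · refine le_trans ?_ key
    have e1 : 2 / (Y * L) = 2 * y := by
      rw [hy]
      ring
    rw [e1] at hS
    have e2 : 3 * T / 2 + T / 40 - (3 * T / 2 - T / 40) = T / 20 := by ring
    rw [e2]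
    have := mul_le_mul_of_nonneg_left hS (by positivity : 0 ≤ T / 20)
    linarith
  · intro x hx
    refine ContinuousAt.continuousWithinAt ?_
    refine ContinuousAt.comp (f := fun x : ℝ => (x : ℂ) - y * I) (g := Bq a)
      (hdB _ ?_ (by simpa using hy0)).continuousAt (by fun_prop)
    rw [abs_le]
    simp only [sub_re, ofReal_re, mul_re, I_re, mul_zero, ofReal_im, I_im, zero_mul, sub_zero]
    constructor <;> linarith [hx.1, hx.2]
  · simp only [mv_shift]
    exact H83.ds_cont _ _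
  · simp only [mv_shift]
    exact H83.ds_cont _ _
  · intro s
    rw [mv_shift]
    exact H83.ds_bd _ _ s
  · intro s
    rw [mv_shift]
    exact H83.ds_bd _ _ s
  · intro t ht
    have hreg : ∀ z : ℂ, |z.re - t| ≤ √T / 2 → |z.re - 3 * T / 2| ≤ T / 30 := by
      intro z hz
      have hz' := abs_le.1 hz
      rw [abs_le]
      constructor <;> linarith [hz'.1, hz'.2, ht.1, ht.2]
    have hq := hql N N₂ n1 n2 n3 n5 t y (Bq a) (rc 0 (I * a)) (fun n => (X : ℂ)⁻¹ * g n) hy0 hy4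
      (fun n => by
        rw [norm_mul, norm_inv, Complex.norm_real, Real.norm_eq_abs, abs_of_pos hX0,
          inv_mul_le_iff₀ hX0, mul_one]
        exact hcf n)
      hb (fun z hz => (hdB z (hreg z hz.1) (by linarith [hz.2.2])).differentiableWithinAt)
      (fun z hz h1 h2 => hbB z (hreg z hz) h1 h2) (fun z _ h => hLs z h)
    simp only [mv_cut_smul, mv_cv_smul, H83.dp_smul] at hq
    have hτ : T ^ (-(1 / 2) : ℝ) ≤ 1 := Real.rpow_le_one_of_one_le_of_nonpos hT (by norm_num)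
    have e1 : ∀ x : ℝ, Bq a ((t + x : ℝ) - y * I) *
        ((‖(X : ℂ)⁻¹ * dp g N ((t + x : ℝ) - y * I)‖ ^ 2 * Real.exp (-x ^ 2) : ℝ) : ℂ) =
        ((X : ℂ) ^ 2)⁻¹ * (Bq a ((t + x : ℝ) - y * I) *
        ((‖dp g N ((t + x : ℝ) - y * I)‖ ^ 2 * Real.exp (-x ^ 2) : ℝ) : ℂ)) := by
      intro x
      rw [norm_mul, norm_inv, Complex.norm_real, Real.norm_eq_abs, abs_of_pos hX0]
      push_cast
      field_simp
    have e2 : ∀ x : ℝ, (X : ℂ)⁻¹ * dp c N₂ ((t + x : ℝ) - y * I) *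
        (starRingEnd ℂ) ((X : ℂ)⁻¹ * dp g N ((t + x : ℝ) - y * I)) * (Real.exp (-x ^ 2) : ℝ) =
        ((X : ℂ) ^ 2)⁻¹ * (dp c N₂ ((t + x : ℝ) - y * I) *
        (starRingEnd ℂ) (dp g N ((t + x : ℝ) - y * I)) * (Real.exp (-x ^ 2) : ℝ)) := by
      intro x
      rw [map_mul, map_inv₀, Complex.conj_ofReal]
      field_simp
    simp only [← hc, e1, e2] at hq
    rw [intervalIntegral.integral_const_mul, integral_const_mul, ← mul_sub, norm_mul, norm_inv,
      norm_pow, Complex.norm_real, Real.norm_eq_abs, abs_of_pos hX0,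
      inv_mul_le_iff₀ (by positivity)] at hq
    exact hq.trans (mul_le_of_le_one_right (by positivity) hτ)
  · intro s₁ s₂
    simp only [mv_shift]
    rw [← mv_sum c g y n6]
    refine (hM N₂ _ _ _ _ (C' * X) X s₁ s₂ subset_rfl (Finset.Icc_subset_Icc_right n6)
      (by positivity) hX0.le (fun n hn => ?_) (fun n _ => ?_)).trans ?_
    · rw [norm_mul]
      have h1 : (n : ℝ) ≤ N₂ := by exact_mod_cast (Finset.mem_Icc.1 hn).2
      exact (mul_le_of_le_one_right (norm_nonneg _) (mv_np_le hy0.le n)).trans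
        (hcb n (h1.trans n5))
    · rw [norm_mul]
      exact (mul_le_of_le_one_right (norm_nonneg _) (mv_np_le hy0.le n)).trans (hcf n)
    · have h0 : 0 ≤ Real.log N₂ := Real.log_natCast_nonneg _
      have h1 : 20 * (K * C') * N₂ * (1 + Real.log N₂) ≤ T := by
        refine le_trans ?_ hE
        gcongr
      have h2 := mul_le_mul_of_nonneg_right h1 (by positivity : 0 ≤ X ^ 2 / 20)
      calc _ = 20 * (K * C') * N₂ * (1 + Real.log N₂) * (X ^ 2 / 20) := by ring
        _ ≤ T * (X ^ 2 / 20) := h2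
        _ = _ := by ring

end Pool.Agent.MP_ca0a54_nt.H60
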