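import Pool.Agent.MP_ca0a54_nt.H83.PQ
import Pool.Agent.MP_ca0a54_nt.L0.Factor

/-! Row PB, part a: elementary estimates. -/

open Complex MeasureTheory Filter Topology

namespace Pool.Agent.MP_ca0a54_nt.H60

open Pool.Agent.MP_ca0a54_nt.L0 Pool.Agent.MP_ca0a54_nt.H24

theorem alg {ϑ B R V P Q S : ℂ} {C τ G : ℝ} (hC : 1 ≤ C) (h1 : 1 / C ≤ ‖ϑ‖) (hτ0 : 0 ≤ τ)
    (hτ : τ ≤ 1) (h2 : ‖ϑ * B - V‖ ≤ τ * ‖V‖) (h3 : ‖V * R - ϑ * P - ϑ * Q‖ ≤ G) :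
    ‖B * R - S‖ ≤ 2 * C * G + τ * ‖P‖ + 2 * ‖Q‖ + ‖P - S‖ := by
  have hG : 0 ≤ G := (norm_nonneg _).trans h3
  have hC0 : 0 < C := by linarith
  have hθ : 1 ≤ C * ‖ϑ‖ := by
    rw [div_le_iff₀ hC0] at h1
    linarith
  have hθ0 : 0 < ‖ϑ‖ := lt_of_lt_of_le (by positivity) h1
  have e1 : ‖V * R‖ ≤ G + ‖ϑ‖ * (‖P‖ + ‖Q‖) := by
    have : V * R = (V * R - ϑ * P - ϑ * Q) + ϑ * (P + Q) := by ring
    rw [this]
    refine (norm_add_le _ _).trans (add_le_add h3 ?_)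
    rw [norm_mul]
    exact mul_le_mul_of_nonneg_left (norm_add_le _ _) hθ0.le
  have e2 : ‖(ϑ * B - V) * R‖ ≤ τ * ‖V * R‖ := by
    rw [norm_mul, norm_mul, ← mul_assoc]
    exact mul_le_mul_of_nonneg_right h2 (norm_nonneg _)
  have e3 : ‖ϑ‖ * ‖B * R - P - Q‖ ≤ τ * ‖V * R‖ + G := by
    rw [← norm_mul]
    have : ϑ * (B * R - P - Q) = (ϑ * B - V) * R + (V * R - ϑ * P - ϑ * Q) := by ring
    rw [this]
    exact (norm_add_le _ _).trans (add_le_add e2 h3)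
  have e4 : ‖ϑ‖ * (‖B * R - P - Q‖ - τ * (‖P‖ + ‖Q‖)) ≤ 2 * G := by
    have := mul_le_mul_of_nonneg_left e1 hτ0
    nlinarith
  have e5 : ‖B * R - P - Q‖ - τ * (‖P‖ + ‖Q‖) ≤ 2 * C * G := by
    rcases le_or_gt (‖B * R - P - Q‖ - τ * (‖P‖ + ‖Q‖)) 0 with h | h
    · exact h.trans (by positivity)
    · nlinarith
  have e6 : ‖B * R - S‖ ≤ ‖B * R - P - Q‖ + ‖Q‖ + ‖P - S‖ := by
    have : B * R - S = (B * R - P - Q) + Q + (P - S) := by ring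
    rw [this]
    exact norm_add₃_le
  have e7 : τ * ‖Q‖ ≤ ‖Q‖ := mul_le_of_le_one_left (norm_nonneg _) hτ
  nlinarith

theorem ds_bd' (c : ℕ → ℂ) (S : Finset ℕ) {w : ℂ} (hw : w.im ≤ 1 / 2) :
    ‖ds c S w‖ ≤ ∑ n ∈ S, ‖c n‖ := by
  unfold ds np
  refine (norm_sum_le _ _).trans (Finset.sum_le_sum fun n _ => ?_)
  rw [norm_mul, Complex.norm_exp]
  refine mul_le_of_le_one_right (norm_nonneg _) ?_
  rw [Real.exp_le_one_iff]
  have : 0 ≤ Real.log n := Real.log_natCast_nonneg n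
  have h : (-(1 / 2 + I * w) * (Real.log n : ℂ)).re = -(1 / 2 - w.im) * Real.log n := by
    simp [-Complex.natCast_log]
    left
    ring
  rw [h]
  nlinarith

theorem dp_bd (c : ℕ → ℂ) (N : ℕ) {w : ℂ} (hw : w.im ≤ 1 / 2) {B : ℝ}
    (hB : ∀ n ≤ N, ‖c n‖ ≤ B) : ‖dp c N w‖ ≤ B * N := by
  refine (ds_bd' c _ hw).trans ?_
  have := Finset.sum_le_card_nsmul (Finset.Icc 1 N) (fun n => ‖c n‖) B
    fun n hn => hB n (Finset.mem_Icc.1 hn).2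
  simpa [mul_comm] using this

theorem np_norm (a : ℝ) (n : ℕ) : ‖np (I * a) n‖ = 1 := by
  unfold np
  rw [Complex.norm_exp]
  simp [-Complex.natCast_log]

theorem dp_diff (f r : ℕ → ℂ) (N : ℕ) (w : ℂ) (a : ℝ) :
    dp f N w - dp r N (w + a) = ds (fun n => f n - r n * np (I * a) n) (Finset.Icc 1 N) w := by
  unfold dp ds
  rw [← Finset.sum_sub_distrib]
  refine Finset.sum_congr rfl fun n _ => ?_
  have : np (1 / 2 + I * (w + a)) n = np (I * a) n * np (1 / 2 + I * w) n := by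
    unfold np
    rw [← Complex.exp_add]
    congr 1
    ring
  rw [this]
  ring

theorem ds_smul (z : ℂ) (f g : ℕ → ℂ) (S : Finset ℕ) (w : ℂ) :
    ds (fun n => z * f n * g n) S w = z * ds (fun n => f n * g n) S w := by
  simp only [ds, Finset.mul_sum, mul_assoc]

theorem ds_meas (c : ℕ → ℂ) (S : Finset ℕ) (z : ℂ) :
    Measurable fun s : ℝ => ‖ds c S (s + z)‖ₑ := by
  have : Continuous fun s : ℝ => ds c S (s + z) := by
    unfold ds np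
    fun_prop
  exact this.measurable.enorm

theorem ms_le (c : ℕ → ℂ) {S : Finset ℕ} {M : ℕ} (hS : S ⊆ Finset.Icc 1 M) {L : ℝ}
    (hL : Real.log M ≤ L) (y : ℝ) :
    ms c S y ≤ Real.exp (2 * L * max y 0) * ∑ n ∈ S, ‖c n‖ ^ 2 / n := by
  unfold ms
  rw [Finset.mul_sum]
  refine Finset.sum_le_sum fun n hn => ?_
  obtain ⟨h1, h2⟩ := Finset.mem_Icc.1 (hS hn)
  have h1' : (1 : ℝ) ≤ n := by exact_mod_cast h1
  have h2' : (n : ℝ) ≤ M := by exact_mod_cast h2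
  have h3 : Real.log n ≤ L := (Real.log_le_log (by linarith) h2').trans hL
  have h4 : 0 ≤ Real.log n := Real.log_nonneg h1'
  have h5 : y * Real.log n ≤ max y 0 * L :=
    mul_le_mul (le_max_left _ _) h3 h4 (le_max_right _ _)
  have h6 : Real.exp ((2 * y - 1) * Real.log n) ≤ Real.exp (2 * L * max y 0) / n := by
    rw [le_div_iff₀ (by linarith)]
    conv_lhs => rw [← Real.exp_log (show (0 : ℝ) < n by linarith), Real.log_exp, ← Real.exp_add]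
    exact Real.exp_le_exp.2 (by nlinarith)
  calc _ ≤ ‖c n‖ ^ 2 * (Real.exp (2 * L * max y 0) / n) :=
        mul_le_mul_of_nonneg_left h6 (by positivity)
    _ = _ := by ring

theorem sq_bd {m τ W B L p : ℝ} (hB : 0 ≤ B) (hW : W + 1 ≤ B ^ 2) (hτ : τ ≤ 1)
    (hm : m ≤ Real.exp (2 * L * p) * W) :
    √(m + τ * Real.exp (2 * L * p)) ≤ Real.exp (L * p) * B := by
  have h1 : Real.exp (2 * L * p) = Real.exp (L * p) ^ 2 := by
    rw [← Real.exp_nat_mul]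
    congr 1
    push_cast
    ring
  rw [Real.sqrt_le_iff]
  refine ⟨by positivity, ?_⟩
  rw [mul_pow, ← h1]
  have := Real.exp_pos (2 * L * p)
  nlinarith

theorem km_nonneg {Δ : ℝ} (hΔ : 0 < Δ) (ζ : ℂ) : 0 ≤ km Δ ζ := by
  unfold km
  positivity

theorem km_meas (Δ : ℝ) (x₀ z : ℂ) :
    Measurable fun x : ℝ => ENNReal.ofReal (km Δ (x₀ - (x + z))) := by
  unfold km
  fun_prop

theorem km_far {Δ s : ℝ} {ζ : ℂ} (hs : 1 ≤ s) (h : s ≤ |ζ.re|) : km Δ ζ ≤ Real.exp (-s ^ 2) := by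
  unfold km
  have h1 : 1 ≤ ‖ζ‖ := (hs.trans h).trans (Complex.abs_re_le_norm ζ)
  have h2 : min (1 / ‖ζ‖) (1 / (Δ * ‖ζ‖ ^ 2)) ≤ 1 :=
    (min_le_left _ _).trans (div_le_one_of_le₀ h1 (by linarith))
  have h3 : s ^ 2 ≤ ζ.re ^ 2 := by
    rw [← sq_abs ζ.re]
    exact pow_le_pow_left₀ (by linarith) h 2
  calc _ ≤ Real.exp (-ζ.re ^ 2) * 1 := mul_le_mul_of_nonneg_left h2 (Real.exp_pos _).le
    _ ≤ _ := by
      rw [mul_one]
      exact Real.exp_le_exp.2 (by linarith)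

/-- Integration of the pointwise bound. -/
theorem int_bound {J : Set ℝ} (hJ : MeasurableSet J) (V : Finset ℝ) (ω : ℝ → ℝ) (k : ℝ → ℝ → ℝ)
    (f g h : ℝ → ℂ) {c K A B T : ℝ} (hc : 0 ≤ c) (hK : 0 ≤ K) (hA : 0 ≤ A) (hB : 0 ≤ B)
    (hT : 0 ≤ T) (hω : ∀ u ∈ V, 0 ≤ ω u) (hk0 : ∀ u x, 0 ≤ k u x)
    (hkm : ∀ u, Measurable fun x => ENNReal.ofReal (k u x))
    (hgm : Measurable fun x => ‖g x‖ₑ) (hhm : Measurable fun x => ‖h x‖ₑ)
    (hvol : volume J ≤ ENNReal.ofReal T)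
    (hk : ∀ u, ∫⁻ x, ENNReal.ofReal (k u x) ≤ ENNReal.ofReal K)
    (hg : ∫⁻ x in J, ‖g x‖ₑ ≤ ENNReal.ofReal A) (hh : ∫⁻ x in J, ‖h x‖ₑ ≤ ENNReal.ofReal B)
    (hf : ∀ x ∈ J, ‖f x‖ ≤ c + ∑ u ∈ V, ω u * k u x + 2 * ‖g x‖ + ‖h x‖) :
    ∫⁻ x in J, ‖f x‖ₑ ≤ ENNReal.ofReal (c * T + (∑ u ∈ V, ω u) * K + 2 * A + B) := by
  have hs0 : 0 ≤ ∑ u ∈ V, ω u := Finset.sum_nonneg hω
  have h1 : ∀ x ∈ J, ‖f x‖ₑ ≤ ENNReal.ofReal c +
      ∑ u ∈ V, ENNReal.ofReal (ω u) * ENNReal.ofReal (k u x) + 2 * ‖g x‖ₑ + ‖h x‖ₑ := by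
    intro x hx
    have e0 : ∀ u ∈ V, 0 ≤ ω u * k u x := fun u hu => mul_nonneg (hω u hu) (hk0 u x)
    have e1 : 0 ≤ ∑ u ∈ V, ω u * k u x := Finset.sum_nonneg e0
    rw [← ofReal_norm, ← ofReal_norm, ← ofReal_norm]
    refine (ENNReal.ofReal_le_ofReal (hf x hx)).trans (le_of_eq ?_)
    rw [ENNReal.ofReal_add (by positivity) (norm_nonneg _),
      ENNReal.ofReal_add (by positivity) (by positivity), ENNReal.ofReal_add hc e1,
      ENNReal.ofReal_sum_of_nonneg e0, ENNReal.ofReal_mul zero_le_two, ENNReal.ofReal_ofNat,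
      Finset.sum_congr rfl fun u hu => ENNReal.ofReal_mul (hω u hu)]
  refine (setLIntegral_mono' hJ h1).trans ?_
  rw [lintegral_add_right _ hhm, lintegral_add_right _ (hgm.const_mul 2),
    lintegral_add_left measurable_const, lintegral_const_mul _ hgm,
    lintegral_finsetSum _ fun u _ => (hkm u).const_mul _, setLIntegral_const,
    ENNReal.ofReal_add (by positivity) hB, ENNReal.ofReal_add (by positivity) (by positivity),
    ENNReal.ofReal_add (by positivity) (by positivity), ENNReal.ofReal_mul hc,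
    ENNReal.ofReal_mul hs0, ENNReal.ofReal_mul zero_le_two, ENNReal.ofReal_ofNat,
    ENNReal.ofReal_sum_of_nonneg hω, Finset.sum_mul]
  refine add_le_add (add_le_add (add_le_add ?_ (Finset.sum_le_sum fun u _ => ?_)) ?_) hh
  · gcongr
  · rw [lintegral_const_mul _ (hkm u)]
    gcongr
    exact (setLIntegral_le_lintegral _ _).trans (hk u)
  · gcongr

theorem log_a {ε L : ℝ} (hε : 0 < ε) (hε1 : ε ≤ 1) (hL : 0 < L) :
    1 + Real.log (1 + L / (ε * L / 4)) ≤ 3 + Real.log (1 / ε) := by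
  have h1 : 1 + L / (ε * L / 4) ≤ 5 * (1 / ε) := by
    have : L / (ε * L / 4) = 4 * (1 / ε) := by field_simp
    rw [this]
    have : 1 ≤ 1 / ε := by
      rw [le_div_iff₀ hε]
      linarith
    linarith
  have h2 := Real.log_le_log (by positivity) h1
  rw [Real.log_mul (by norm_num) (by positivity)] at h2
  have h3 : Real.log 5 ≤ 2 := by
    rw [Real.log_le_iff_le_exp (by norm_num)]
    have := Real.add_one_le_exp (1 : ℝ)
    have h4 : Real.exp 2 = Real.exp 1 * Real.exp 1 := by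
      rw [← Real.exp_add]
      norm_num
    nlinarith [Real.exp_one_gt_d9]
  linarith

theorem log_b {ε L y : ℝ} (hε : 0 < ε) (hε1 : ε ≤ 1) (hL : 0 < L) (hy : 0 < y) :
    1 + Real.log (1 + 1 / (ε * L / 4 * y)) ≤
      3 + Real.log (1 / ε) + Real.log (1 + 1 / (L * y)) := by
  have h0 : 1 ≤ 1 / ε := by
    rw [le_div_iff₀ hε]
    linarith
  have h1 : 1 + 1 / (ε * L / 4 * y) ≤ 4 * ((1 / ε) * (1 + 1 / (L * y))) := by
    have : 1 / (ε * L / 4 * y) = 4 * ((1 / ε) * (1 / (L * y))) := by field_simp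
    rw [this]
    nlinarith
  have h2 := Real.log_le_log (by positivity) h1
  rw [Real.log_mul (by norm_num) (by positivity), Real.log_mul (by positivity) (by positivity)] at h2
  have h3 : Real.log 4 ≤ 2 := by
    have : Real.log 4 = 2 * Real.log 2 := by
      rw [show (4 : ℝ) = 2 ^ 2 by norm_num, Real.log_pow]
      norm_num
    linarith [Real.log_two_lt_d9]
  linarith

theorem floors {T ε : ℝ} (hT : 1 ≤ T) (hε : 0 < ε) (hε1 : ε ≤ 1 / 2) (hL : 8 ≤ ε * Real.log T) :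
    1 ≤ ⌊T ^ (1 - ε)⌋₊ ∧
    Real.log ⌊T ^ (1 - ε)⌋₊ + ε * Real.log T / 4 + ε * Real.log T / 4 + ε * Real.log T / 4 ≤
      Real.log ⌊T ^ (1 - ε / 8)⌋₊ ∧
    (⌊T ^ (1 - ε / 8)⌋₊ : ℝ) ≤ T ^ (1 - ε / 8) ∧ (⌊T ^ (1 - ε / 8)⌋₊ : ℝ) ≤ T ∧
    ⌊T ^ (1 - ε)⌋₊ ≤ ⌊T ^ (1 - ε / 8)⌋₊ ∧ Real.log ⌊T ^ (1 - ε / 8)⌋₊ ≤ Real.log T ∧
    Finset.Ioc ⌊T ^ (1 - ε)⌋₊ ⌊T ^ (1 - ε / 8)⌋₊ ⊆
      win ⌊T ^ (1 - ε / 8)⌋₊ (T ^ (1 - ε)) (ε * Real.log T) := by
  have hT0 : 0 < T := by linarith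
  have a1 : 1 ≤ T ^ (1 - ε) := Real.one_le_rpow hT (by linarith)
  have a2 : 1 ≤ T ^ (1 - ε / 8) := Real.one_le_rpow hT (by linarith)
  have b1 : 1 ≤ ⌊T ^ (1 - ε)⌋₊ := Nat.le_floor (by simpa using a1)
  have b2 : 1 ≤ ⌊T ^ (1 - ε / 8)⌋₊ := Nat.le_floor (by simpa using a2)
  have b1' : (1 : ℝ) ≤ ⌊T ^ (1 - ε)⌋₊ := by exact_mod_cast b1
  have b2' : (1 : ℝ) ≤ ⌊T ^ (1 - ε / 8)⌋₊ := by exact_mod_cast b2
  have c1 : (⌊T ^ (1 - ε)⌋₊ : ℝ) ≤ T ^ (1 - ε) := Nat.floor_le (by linarith)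
  have c2 : (⌊T ^ (1 - ε / 8)⌋₊ : ℝ) ≤ T ^ (1 - ε / 8) := Nat.floor_le (by linarith)
  have c3 : T ^ (1 - ε / 8) ≤ T := by
    conv_rhs => rw [← Real.rpow_one T]
    exact Real.rpow_le_rpow_of_exponent_le hT (by linarith)
  refine ⟨b1, ?_, c2, c2.trans c3,
    Nat.floor_le_floor (Real.rpow_le_rpow_of_exponent_le hT (by linarith)),
    Real.log_le_log (by linarith) (c2.trans c3), fun n hn => ?_⟩
  · have d1 : Real.log ⌊T ^ (1 - ε)⌋₊ ≤ (1 - ε) * Real.log T := by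
      rw [← Real.log_rpow hT0]
      exact Real.log_le_log (by linarith) c1
    have d2 : T ^ (1 - ε / 8) ≤ 2 * ⌊T ^ (1 - ε / 8)⌋₊ := by
      have := Nat.lt_floor_add_one (T ^ (1 - ε / 8))
      linarith
    have d3 : (1 - ε / 8) * Real.log T ≤ Real.log 2 + Real.log ⌊T ^ (1 - ε / 8)⌋₊ := by
      rw [← Real.log_rpow hT0, ← Real.log_mul (by norm_num) (by linarith)]
      exact Real.log_le_log (by linarith) d2
    have d4 : Real.log 2 ≤ 1 := by linarith [Real.log_two_lt_d9]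
    nlinarith
  · obtain ⟨h1, h2⟩ := Finset.mem_Ioc.1 hn
    rw [win, Finset.mem_filter, Finset.mem_Icc]
    refine ⟨⟨by omega, h2⟩, Nat.lt_of_floor_lt h1, ?_⟩
    have h3 : (n : ℝ) ≤ ⌊T ^ (1 - ε / 8)⌋₊ := by exact_mod_cast h2
    have h4 : T ^ (1 - ε) * Real.exp (ε * Real.log T) = T := by
      rw [Real.rpow_def_of_pos hT0, ← Real.exp_add]
      conv_rhs => rw [← Real.exp_log hT0]
      congr 1
      ring
    rw [h4]
    exact h3.trans (c2.trans c3)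

theorem far_small {η T : ℝ} (hT : 0 < T) (h : 8 ≤ η ^ 2 * T) :
    2 * T * T * Real.exp (-(η * T / 2) ^ 2) ≤ 1 := by
  have h1 := Real.pow_div_factorial_le_exp ((η * T / 2) ^ 2) (by positivity) 2
  rw [Real.exp_neg, ← div_eq_mul_inv, div_le_one (Real.exp_pos _)]
  refine le_trans ?_ h1
  have h2 : 64 ≤ (η ^ 2 * T) ^ 2 := by nlinarith
  have h3 : ((η * T / 2) ^ 2) ^ 2 / (Nat.factorial 2 : ℕ) = (η ^ 2 * T) ^ 2 * (T * T) / 32 := by
    simp [Nat.factorial]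
    ring
  rw [h3]
  nlinarith [mul_pos hT hT]

end Pool.Agent.MP_ca0a54_nt.H60
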